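import Pool.Agent.H31.SX.TargetsS
import Pool.Agent.H31.SX.TargetsD
import Pool.Agent.H56.DW.BQ

/-! Module BQ of the board swx_modules: the bound for the dual sum. -/

set_option autoImplicit false

open NumberField NumberField.InfinitePlace NumberField.Units
  NumberField.Units.dirichletUnitTheorem MeasureTheory Set Filter Complex
open scoped nonZeroDivisors ENNReal

namespace Pool.Agent.H34.SX

open Pool.Agent.H31.SW Pool.Agent.H31.SX
open Pool.Agent.H29.TC (Gn LC cq)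
open Pool.Agent.H25.HK Pool.Agent.H23.LB Pool.Agent.H23.LC
open Pool.Agent.H28.RC (Rep ft idl)
open Pool.Agent.H29.DW (dg Rl lf wv Pos Wg cpar Ci om zs rv Wt PrG)

private lemma norm_EE (z : ℂ) : ‖EE z‖ = 1 := by
  unfold EE
  rw [← Complex.ofReal_neg]
  exact Complex.norm_exp_ofReal_mul_I _

private lemma pz_zero (r : Bool) {x : ℂ} (h : 1 / 10000 ≤ ‖x‖) : pz r x = 0 := by
  unfold pz
  have : bz x = 0 := by
    apply bz.zero_of_le_dist
    rw [dist_zero_right]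
    exact h
  rw [this]
  simp

private lemma pz_norm (r : Bool) (x : ℂ) : ‖pz r x‖ ≤ 1 := by
  unfold pz
  rw [Complex.norm_real, Real.norm_of_nonneg bz.nonneg]
  exact bz.le_one

private lemma pz_meas (r : Bool) : Measurable (pz r) := by
  unfold pz
  exact Complex.measurable_ofReal.comp bz.continuous.measurable

private lemma tf {K : Type} [Field K] [NumberField K] (c : InfinitePlace K → ℂ) :
    Tf (fun v => GG (pz (rv v)) (c v)) := by
  refine ⟨fun v => ?_, fun v w => ?_, fun v w hw => ?_⟩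
  · unfold GG EE
    have h1 : Measurable (fun w : ℂ => pz (rv v) (w - 1)) :=
      (pz_meas (rv v)).comp (measurable_id.sub_const 1)
    have h2 : Measurable (fun w : ℂ => ((c v * Complex.log w).re : ℝ)) :=
      Complex.measurable_re.comp (Complex.measurable_log.const_mul (c v))
    exact (Complex.measurable_exp.comp
      ((Complex.measurable_ofReal.comp h2).neg.mul_const I)).mul h1
  · unfold GG
    rw [norm_mul, norm_EE, one_mul]
    exact pz_norm _ _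
  · unfold GG
    rw [pz_zero (rv v) (by linarith), mul_zero]

section

variable {K : Type} [Field K] [NumberField K]

private lemma Nf_mul (l k : Ideal (𝓞 K)) : Nf K (l * k) = Nf K l * Nf K k := by
  unfold Nf
  rw [map_mul]
  push_cast
  ring

private lemma cls (hSG : X_SG) (hSH : X_SH) (hCD : X_CD) (hGX : Pool.Agent.H29.TC.T_GX)
    {l k : Ideal (𝓞 K)} (h : LK l k) (D : Sys K (l * k)) (χ : HG K (l * k)) (hχ : PrG k χ) :
    ∀ i : D.ι, ∃ c' q : K → ℂ,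
      CD l k k.radical (du K (((l * k : Ideal (𝓞 K)) : FI K) * D.M i)) q ∧
      (∀ y ∈ du K (((l * k : Ideal (𝓞 K)) : FI K) * D.M i),
        ∀ t ∈ (l : FI K) * du K (((l * k : Ideal (𝓞 K)) : FI K) * D.M i),
          c' (y + t) = c' y) ∧
      (∀ y ∈ du K (((l * k : Ideal (𝓞 K)) : FI K) * D.M i),
        ‖c' y‖ ≤ Nf K l * Real.sqrt (Nf K k)) ∧
      ∀ y ∈ du K (((l * k : Ideal (𝓞 K)) : FI K) * D.M i), ch D χ i y = c' y * q y := by
  intro i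
  have hlk : l * k ≠ ⊥ := mul_ne_zero h.l_ne h.k_ne
  have hM : D.M i ≠ 0 := D.reps.1 i
  have hY : du K (((l * k : Ideal (𝓞 K)) : FI K) * D.M i) ≠ 0 := by
    unfold du
    exact FractionalIdeal.dual_ne_zero ℤ ℚ
      (mul_ne_zero (FractionalIdeal.coeIdeal_ne_zero.mpr hlk) hM)
  obtain ⟨η, hη, hc⟩ := hSG K l k h χ hχ
  obtain ⟨x₀, hx₀⟩ := hGX K (l * k) (D.M i) hlk hM
  obtain ⟨y₀, hy₀⟩ := hGX K (l * k) _ hlk hY
  obtain ⟨c, hc1, hc2, hc3⟩ := hc (D.M i) x₀ hM hx₀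
  obtain ⟨c', h1, h2, h3⟩ := hSH K l k h η hη (D.M i) x₀ y₀ c (D.X i) hM hx₀ hy₀ hc1 hc2
    (D.rep i)
  refine ⟨c', fun y => (starRingEnd ℂ)
    (cq k η (du K (((l * k : Ideal (𝓞 K)) : FI K) * D.M i)) y₀ y),
    (hCD K l k h η hη _ y₀ hY hy₀).2, h2, h1, fun y hy => ?_⟩
  rw [← h3 y hy]
  unfold ch ft
  refine Finset.sum_congr rfl fun r hr => ?_
  rw [hc3 r ((D.rep i).1 r hr)]

private lemma PP_le {n : ℕ} (hn : Module.finrank ℚ K = n) (k : InfinitePlace K → ℤ)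
    (ν : InfinitePlace K → ℝ) (t : ℝ) :
    PP (fun v => 1 + ‖cpar k ν t v‖) ≤ 2 ^ n * Ci k ν t := by
  unfold PP Ci
  rw [← Pool.Agent.H29.DW.sum_mult hn, ← Finset.prod_pow_eq_pow_sum, ← Finset.prod_mul_distrib]
  refine Finset.prod_le_prod (fun v _ => by positivity) fun v _ => ?_
  rw [← mul_pow]
  refine pow_le_pow_left₀ (by positivity) ?_ _
  have := Pool.Agent.H29.DW.norm_cpar_le k ν t v
  linarith

private lemma Ci_le' {n : ℕ} (hn : Module.finrank ℚ K = n) (k : InfinitePlace K → ℤ)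
    (ν : InfinitePlace K → ℝ) (t : ℝ)
    (hk : ∀ v : InfinitePlace K, v.IsReal → k v = 0 ∨ k v = 1) :
    Ci k ν t ≤ 3 ^ n * PP (fun v => 1 + ‖cpar k ν t v‖) := by
  unfold PP Ci
  rw [← Pool.Agent.H29.DW.sum_mult hn, ← Finset.prod_pow_eq_pow_sum, ← Finset.prod_mul_distrib]
  refine Finset.prod_le_prod (fun v _ => by positivity) fun v _ => ?_
  rw [← mul_pow]
  refine pow_le_pow_left₀ (by positivity) ?_ _
  have h1 := Pool.Agent.H29.DW.le_norm_cpar k ν t hk v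
  have h2 : max 1 ‖cpar k ν t v‖ ≤ 1 + ‖cpar k ν t v‖ :=
    max_le (by linarith [norm_nonneg (cpar k ν t v)]) (by linarith)
  linarith

end

/-- the numerical part -/
private lemma num {n : ℕ} {c₀ w W a b T C B hR R dk Y P Ci : ℝ} (hc₀ : 0 < c₀) (hw : 1 ≤ w)
    (hW : c₀ ≤ W) (ha : 0 < a) (hb : 0 < b) (hT : 0 ≤ T) (hC : 0 ≤ C) (hB : 0 ≤ B)
    (hhR : 0 ≤ hR) (hR0 : 0 ≤ R) (hdk : 0 ≤ dk) (hY : 0 ≤ Y) (hP0 : 0 ≤ P)
    (hP : P ≤ 2 ^ n * Ci) (hCi : 0 ≤ Ci)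
    (h : w * W * (a * b) * T ≤
      C * B * (a ^ 2 * b) * hR * a ^ 2 * R * dk * Y * (P * b ^ 2) ^ (27 / 164 : ℝ)) :
    T ≤ c₀⁻¹ * C * 2 ^ n * B * hR * (a ^ 2) ^ (3 / 2 : ℝ) * R * dk * Y *
      (Ci * b ^ 2) ^ (27 / 164 : ℝ) := by
  have h1 : (P * b ^ 2) ^ (27 / 164 : ℝ) ≤ 2 ^ n * (Ci * b ^ 2) ^ (27 / 164 : ℝ) := by
    have h2 : (1 : ℝ) ≤ 2 ^ n := one_le_pow₀ (by norm_num)
    have h3 : ((2 : ℝ) ^ n) ^ (27 / 164 : ℝ) ≤ 2 ^ n := by
      calc ((2 : ℝ) ^ n) ^ (27 / 164 : ℝ) ≤ ((2 : ℝ) ^ n) ^ (1 : ℝ) :=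
            Real.rpow_le_rpow_of_exponent_le h2 (by norm_num)
        _ = 2 ^ n := Real.rpow_one _
    calc (P * b ^ 2) ^ (27 / 164 : ℝ) ≤ (2 ^ n * (Ci * b ^ 2)) ^ (27 / 164 : ℝ) := by
          refine Real.rpow_le_rpow (by positivity) ?_ (by norm_num)
          rw [← mul_assoc]
          exact mul_le_mul_of_nonneg_right hP (by positivity)
      _ = ((2 : ℝ) ^ n) ^ (27 / 164 : ℝ) * (Ci * b ^ 2) ^ (27 / 164 : ℝ) :=
          Real.mul_rpow (by positivity) (by positivity)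
      _ ≤ 2 ^ n * (Ci * b ^ 2) ^ (27 / 164 : ℝ) :=
          mul_le_mul_of_nonneg_right h3 (Real.rpow_nonneg (by positivity) _)
  have hN32 : (a ^ 2) ^ (3 / 2 : ℝ) = a ^ 3 := by
    rw [← Real.rpow_natCast, ← Real.rpow_mul ha.le, ← Real.rpow_natCast a 3]
    norm_num
  have hZ : 0 ≤ (Ci * b ^ 2) ^ (27 / 164 : ℝ) := Real.rpow_nonneg (by positivity) _
  have h4 : c₀ ≤ w * W := by
    calc c₀ = 1 * c₀ := (one_mul _).symm
      _ ≤ w * W := mul_le_mul hw hW hc₀.le (by linarith)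
  have h5 : c₀ * (a * b) * T ≤ w * W * (a * b) * T := by
    have : 0 ≤ a * b * T := by positivity
    nlinarith
  have h6 : 0 ≤ C * B * (a ^ 2 * b) * hR * a ^ 2 * R * dk * Y := by positivity
  have h7 : c₀ * (a * b) * T ≤ C * B * (a ^ 2 * b) * hR * a ^ 2 * R * dk * Y *
      (2 ^ n * (Ci * b ^ 2) ^ (27 / 164 : ℝ)) :=
    (h5.trans h).trans (mul_le_mul_of_nonneg_left h1 h6)
  rw [hN32]
  have h8 : C * B * (a ^ 2 * b) * hR * a ^ 2 * R * dk * Y *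
      (2 ^ n * (Ci * b ^ 2) ^ (27 / 164 : ℝ)) =
      c₀ * (a * b) * (c₀⁻¹ * C * 2 ^ n * B * hR * a ^ 3 * R * dk * Y *
        (Ci * b ^ 2) ^ (27 / 164 : ℝ)) := by
    field_simp
  rw [h8] at h7
  exact le_of_mul_le_mul_left h7 (by positivity)

open scoped Classical in
/-- (BQ) -/
theorem pf_BQ (hUQ : W_UQ) (hWL : W_WL) (hBI : X_BI) (hSG : X_SG) (hSH : X_SH) (hCD : X_CD)
    (_hCG : U_CG) (hGX : Pool.Agent.H29.TC.T_GX) (_hRX : Pool.Agent.H28.RC.T_RX)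
    (hRR : Pool.Agent.H23.LB.T_RR) : X_BQ := by
  intro n hn κ hκ hκ1
  obtain ⟨C, hC0, hC⟩ := hBI n hn κ hκ hκ1
  obtain ⟨c₀, hc₀, hc⟩ := hWL n hn
  refine ⟨c₀⁻¹ * C * 2 ^ n, by positivity, fun K _ _ hK l k hLK D χ hPr t B v hB hWt => ?_⟩
  have hlk : l * k ≠ ⊥ := mul_ne_zero hLK.l_ne hLK.k_ne
  have hreps : Reps K (fun i => du K (((l * k : Ideal (𝓞 K)) : FI K) * D.M i)) :=
    (hRR K D.ι _ ((hRR K D.ι D.M D.reps).1 _ hlk)).2.1
  have hd1 := Pool.Agent.H56.DW.one_le_disc (K := K)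
  have hf1 := Pool.Agent.H56.DW.one_le_Nf hlk
  have hl1 := Pool.Agent.H56.DW.one_le_Nf hLK.l_ne
  have hk1 := Pool.Agent.H56.DW.one_le_Nf hLK.k_ne
  have hCi := Pool.Agent.H29.DW.one_le_Ci χ.k χ.ν t
  obtain ⟨c, hcdef⟩ : ∃ c : InfinitePlace K → ℂ, c = cpar (-χ.k) (-χ.ν) (-t) := ⟨_, rfl⟩
  have hnc : (fun v => 1 + ‖c v‖) = fun v => 1 + ‖cpar χ.k χ.ν t v‖ := by
    funext v
    rw [hcdef, Pool.Agent.H29.DW.cpar_neg]
    simp
  obtain ⟨A, hA⟩ : ∃ A : ℝ, A = |(discr K : ℝ)| * Nf K (l * k) * Ci χ.k χ.ν t := ⟨_, rfl⟩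
  rw [← hA] at hWt ⊢
  have hA1 : 1 ≤ A := by
    rw [hA]
    exact one_le_mul_of_one_le_of_one_le (one_le_mul_of_one_le_of_one_le hd1 hf1) hCi
  have hPC := Ci_le' hK χ.k χ.ν t χ.real_k
  have hX2 : Real.sqrt A ^ 2 ≤
      3 ^ n * (dK K * Nf K l * (PP (fun v => 1 + ‖c v‖) * Nf K k)) := by
    rw [Real.sq_sqrt (by linarith), hnc, hA, Nf_mul]
    unfold dK
    calc |(discr K : ℝ)| * (Nf K l * Nf K k) * Ci χ.k χ.ν t ≤
        |(discr K : ℝ)| * (Nf K l * Nf K k) *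
          (3 ^ n * PP (fun v => 1 + ‖cpar χ.k χ.ν t v‖)) := by gcongr
      _ = 3 ^ n * (|(discr K : ℝ)| * Nf K l *
          (PP (fun v => 1 + ‖cpar χ.k χ.ν t v‖) * Nf K k)) := by ring
  choose cc q h1 h2 h3 h4 using cls hSG hSH hCD hGX hLK D χ hPr
  have hE0 : 0 ≤ Nf K l * Real.sqrt (Nf K k) := by positivity
  have key := hC K hK D.ι (fun i => du K (((l * k : Ideal (𝓞 K)) : FI K) * D.M i)) hreps l k c
    (Real.sqrt A) B (Nf K l * Real.sqrt (Nf K k)) v q cc false hLK.l_ne hLK.k_ne h1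
    (by
      rw [hcdef]
      intro w
      exact ((Pool.Agent.H29.DW.Prm_cpar (-χ.k) (-χ.ν) (-t)).par w).real)
    (Real.one_le_sqrt.2 hA1) hX2 hB hWt hE0 h2 h3
  have h5 : ∀ (i : D.ι)
      (x : {x : K // x ∈ du K (((l * k : Ideal (𝓞 K)) : FI K) * D.M i) ∧ x ≠ 0}),
      cc i x * q i x = ch D χ i x := fun i x => (h4 i x x.2.1).symm
  simp only [h5] at key
  have hU := hUQ K _ hlk D χ (fun v => GG (pz (rv v)) (c v)) (-t) v (tf c)
    (Pool.Agent.H56.DW.Wt_bound hWt)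
  have eT : ∀ J : NZI K, (Ideal.absNorm J.1 : ℂ) ^ (-(((-t : ℝ) : ℂ) * I : ℂ)) =
      (Ideal.absNorm J.1 : ℂ) ^ (t * I : ℂ) := by
    intro J
    congr 1
    push_cast
    ring
  simp only [eT] at hU
  have hS : ENNReal.ofReal ‖(torsionOrder K : ℂ) *
      WG K (fun v => GG (pz (rv v)) (c v)) (-χ.k) (-χ.ν) (-t) *
        ((Real.sqrt (Nf K (l * k)) : ℝ) : ℂ) *
        ∑' J : NZI K, cd D χ J.1 * v (Ideal.absNorm J.1) *
          (Ideal.absNorm J.1 : ℂ) ^ (t * I : ℂ)‖ ≤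
      ∑ i, ∫⁻ u in Fd K ×ˢ (univ : Set ℝ) ×ˢ An K,
        ENNReal.ofReal ‖∑' x : {x : K // x ∈ du K (((l * k : Ideal (𝓞 K)) : FI K) * D.M i) ∧
            x ≠ 0}, ch D χ i x *
          v (Ideal.absNorm (idl K (du K (((l * k : Ideal (𝓞 K)) : FI K) * D.M i)) x)) *
            pF (fun v => GG (pz (rv v)) (c v))
              (yM K (du K (((l * k : Ideal (𝓞 K)) : FI K) * D.M i)) u.2.1 (zs false u.1))
                (om false u.2.2) x‖ := by
    rw [← hU]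
    refine Pool.Agent.H56.DW.sum_int_le _ _ _ _ fun i a => ?_
    have e : (((-t : ℝ) : ℂ) * (a.2.1 : ℂ)) = (((-t) * a.2.1 : ℝ) : ℂ) := by push_cast; rfl
    rw [norm_mul, norm_mul, norm_mul (ek _ _), Pool.Agent.H56.DW.ec_norm,
      Pool.Agent.H56.DW.ek_norm, e, Complex.norm_exp_ofReal_mul_I, one_mul, one_mul, one_mul]
  have hfin := hS.trans key
  have hHR : 0 ≤ (classNumber K : ℝ) * regulator K :=
    mul_nonneg (Nat.cast_nonneg _) (regulator_pos K).le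
  have hPP0 : 0 ≤ PP (fun v => 1 + ‖c v‖) := by
    unfold PP
    exact Finset.prod_nonneg fun w _ => by positivity
  have hdk : 0 ≤ dK K ^ (13 / 8 : ℝ) := by
    unfold dK
    exact Real.rpow_nonneg (abs_nonneg _) _
  have hR0 : 0 ≤ Nf K k.radical ^ 4 := by
    unfold Nf
    positivity
  obtain ⟨a, ha⟩ : ∃ a : ℝ, a = Real.sqrt (Nf K l) := ⟨_, rfl⟩
  obtain ⟨b, hb⟩ : ∃ b : ℝ, b = Real.sqrt (Nf K k) := ⟨_, rfl⟩
  have ha0 : 0 < a := by rw [ha]; exact Real.sqrt_pos.2 (by linarith)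
  have hb0 : 0 < b := by rw [hb]; exact Real.sqrt_pos.2 (by linarith)
  have haN : Nf K l = a ^ 2 := by rw [ha, Real.sq_sqrt (by linarith)]
  have hbN : Nf K k = b ^ 2 := by rw [hb, Real.sq_sqrt (by linarith)]
  have hsN : Real.sqrt (Nf K (l * k)) = a * b := by
    rw [Nf_mul, Real.sqrt_mul (by linarith), ha, hb]
  rw [← hb, hsN, haN, hbN] at hfin
  rw [ENNReal.ofReal_le_ofReal_iff (by positivity)] at hfin
  rw [norm_mul, norm_mul, norm_mul, Complex.norm_natCast, Complex.norm_real,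
    Real.norm_of_nonneg (by positivity : 0 ≤ a * b)] at hfin
  have hW := hc K hK (-χ.k) (-χ.ν) (-t) (by
    have := χ.norm_zero
    simp only [Pi.neg_apply, mul_neg, Finset.sum_neg_distrib, this, neg_zero])
  rw [← hcdef] at hW
  have hXk : Real.sqrt A ^ (2 * κ) = A ^ κ := by
    rw [Real.sqrt_eq_rpow, ← Real.rpow_mul (by linarith)]
    congr 1
    ring
  rw [hXk] at hfin
  have hPle : PP (fun v => 1 + ‖c v‖) ≤ 2 ^ n * Ci χ.k χ.ν t := by
    rw [hnc]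
    exact PP_le hK χ.k χ.ν t
  rw [haN, hbN]
  exact num hc₀ (Pool.Agent.H56.DW.one_le_tor (K := K)) hW ha0 hb0
    (norm_nonneg _) hC0 hB hHR hR0 hdk (Real.rpow_nonneg (by linarith) _) hPP0 hPle
    (by linarith) hfin

end Pool.Agent.H34.SX
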